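import Mathlib

/-!
# Plancherel measure on partitions
-/

namespace Q296.Planch

/-- `T` is a standard Young tableau of shape `lam` (with `n` cells): a filling of the cells with
the numbers `1, …, n`, each used once, which increases strictly along rows and columns. Outside the
diagram the entry is `0` by convention. The cell `(i, j)` is in row `i`, column `j`. -/
structure IsSYT (lam : YoungDiagram) (T : ℕ × ℕ → ℕ) : Prop where
  zero : ∀ c, c ∉ lam → T c = 0
  bij : Set.BijOn T (lam : Set (ℕ × ℕ)) (Set.Icc 1 lam.card)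
  row : ∀ i j j', j < j' → (i, j') ∈ lam → T (i, j) < T (i, j')
  col : ∀ i i' j, i < i' → (i', j) ∈ lam → T (i, j) < T (i', j)

/-- `f^λ`, the number of standard Young tableaux of shape `lam`. -/
noncomputable def numSYT (lam : YoungDiagram) : ℕ := {T : ℕ × ℕ → ℕ | IsSYT lam T}.ncard

/-- `S_r = λ_1 + … + λ_r` (Mathlib numbers the rows from `0`). -/
def topRows (lam : YoungDiagram) (r : ℕ) : ℕ := ∑ i ∈ Finset.range r, lam.rowLen i

/-- `μ_n(S_r = j)`: the sum of `(f^λ)² / n!` over the Young diagrams `λ` with `n` cells and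
`λ_1 + … + λ_r = j`. -/
noncomputable def massTopRows (n r j : ℕ) : ℝ :=
  (∑ᶠ lam ∈ {lam : YoungDiagram | lam.card = n ∧ topRows lam r = j}, (numSYT lam : ℝ) ^ 2) /
    (n.factorial : ℝ)

end Q296.Planch
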