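import Pool.Agent.Q296.Planch.Defs

/-!
# Failure of log-concavity of `λ_1 + … + λ_r` under the Plancherel measure
-/

namespace Q296.Planch

open Finset

/-! ### Linear extensions of finite subsets of `ℕ × ℕ` -/

/-- fillings of a finite set of cells which are increasing for the product order -/
structure LExt (s : Finset (ℕ × ℕ)) (T : ℕ × ℕ → ℕ) : Prop where
  zero : ∀ c, c ∉ s → T c = 0
  bij : Set.BijOn T (s : Set (ℕ × ℕ)) (Set.Icc 1 s.card)
  mono : ∀ a ∈ s, ∀ b ∈ s, a < b → T a < T b

lemma isSYT_iff (lam : YoungDiagram) (T : ℕ × ℕ → ℕ) : IsSYT lam T ↔ LExt lam.cells T := by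
  constructor
  · intro h
    refine ⟨fun c hc => h.zero c (fun h' => hc h'), h.bij, ?_⟩
    rintro ⟨i, j⟩ ha ⟨i', j'⟩ hb hab
    have hle : i ≤ i' ∧ j ≤ j' := by
      have := hab.le
      simpa using this
    have hmid : (i, j') ∈ lam := lam.up_left_mem hle.1 le_rfl hb
    rcases lt_or_eq_of_le hle.2 with hj | hj
    · have h1 := h.row i j j' hj hmid
      rcases lt_or_eq_of_le hle.1 with hi | hi
      · exact h1.trans (h.col i i' j' hi hb)
      · subst hi; exact h1
    · subst hj
      rcases lt_or_eq_of_le hle.1 with hi | hi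
      · exact h.col i i' j hi hb
      · subst hi; exact absurd hab (lt_irrefl _)
  · intro h
    refine ⟨fun c hc => h.zero c (fun h' => hc h'), h.bij, ?_, ?_⟩
    · intro i j j' hj hmem
      have hmem2 : (i, j) ∈ lam := lam.up_left_mem le_rfl hj.le hmem
      refine h.mono _ hmem2 _ hmem ?_
      rw [Prod.mk_lt_mk]
      right
      exact ⟨le_rfl, hj⟩
    · intro i i' j hi hmem
      have hmem2 : (i, j) ∈ lam := lam.up_left_mem hi.le le_rfl hmem
      refine h.mono _ hmem2 _ hmem ?_
      rw [Prod.mk_lt_mk]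
      left
      exact ⟨hi, le_rfl⟩

lemma LExt.mem_Icc {s : Finset (ℕ × ℕ)} {T : ℕ × ℕ → ℕ} (h : LExt s T) {c : ℕ × ℕ} (hc : c ∈ s) :
    1 ≤ T c ∧ T c ≤ s.card := by
  have := h.bij.mapsTo hc
  simpa using this

lemma finite_LExt (s : Finset (ℕ × ℕ)) : {T | LExt s T}.Finite := by
  have hinj : Function.Injective (fun T : {T | LExt s T} => fun c : s =>
      (⟨T.1 c.1, Nat.lt_succ_of_le (T.2.mem_Icc c.2).2⟩ : Fin (s.card + 1))) := by
    intro T T' h
    apply Subtype.ext
    funext c
    by_cases hc : c ∈ s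
    · have := congrFun h ⟨c, hc⟩
      simpa using this
    · rw [T.2.zero c hc, T'.2.zero c hc]
  exact Set.finite_coe_iff.1 (Finite.of_injective _ hinj)

/-- the number of linear extensions -/
noncomputable def cnt (s : Finset (ℕ × ℕ)) : ℕ := {T | LExt s T}.ncard

lemma numSYT_eq (lam : YoungDiagram) : numSYT lam = cnt lam.cells := by
  unfold numSYT cnt
  congr 1
  ext T
  exact isSYT_iff lam T

/-- adding a maximal cell -/
lemma LExt.update {s : Finset (ℕ × ℕ)} {m : ℕ × ℕ} (hm : m ∈ s) (hmax : ∀ a ∈ s, ¬ m < a)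
    {T : ℕ × ℕ → ℕ} (hT : LExt (s.erase m) T) : LExt s (Function.update T m s.card) := by
  have hcard : (s.erase m).card = s.card - 1 := card_erase_of_mem hm
  have hpos : 1 ≤ s.card := card_pos.2 ⟨m, hm⟩
  refine ⟨?_, ?_, ?_⟩
  · intro c hc
    have hcm : c ≠ m := fun h => hc (h ▸ hm)
    rw [Function.update_of_ne hcm]
    exact hT.zero c (fun h => hc (mem_of_mem_erase h))
  · have h1 : Set.BijOn (Function.update T m s.card) ((s.erase m : Finset (ℕ × ℕ)) : Set (ℕ × ℕ))
        (Set.Icc 1 (s.erase m).card) := by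
      refine hT.bij.congr ?_
      intro c hc
      have hcm : c ≠ m := ne_of_mem_erase (by exact_mod_cast hc)
      rw [Function.update_of_ne hcm]
    have h2 : Function.update T m s.card m = s.card := Function.update_self ..
    have h3 := h1.insert (a := m) (by
      rw [h2, hcard, Set.mem_Icc]
      omega)
    rw [h2] at h3
    have h4 : insert m ((s.erase m : Finset (ℕ × ℕ)) : Set (ℕ × ℕ)) = (s : Set (ℕ × ℕ)) := by
      rw [← Finset.coe_insert, Finset.insert_erase hm]
    have h5 : insert s.card (Set.Icc 1 (s.erase m).card) = Set.Icc 1 s.card := by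
      rw [hcard]
      ext x
      simp only [Set.mem_insert_iff, Set.mem_Icc]
      omega
    rwa [h4, h5] at h3
  · intro a ha b hb hab
    have ham : a ≠ m := by
      rintro rfl
      exact hmax b hb hab
    rw [Function.update_of_ne ham]
    by_cases hbm : b = m
    · subst hbm
      rw [Function.update_self]
      have := (hT.mem_Icc (mem_erase.2 ⟨ham, ha⟩)).2
      omega
    · rw [Function.update_of_ne hbm]
      exact hT.mono a (mem_erase.2 ⟨ham, ha⟩) b (mem_erase.2 ⟨hbm, hb⟩) hab

lemma update_injOn (s : Finset (ℕ × ℕ)) (m : ℕ × ℕ) (v : ℕ) :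
    Set.InjOn (fun T : ℕ × ℕ → ℕ => Function.update T m v) {T | LExt (s.erase m) T} := by
  intro T hT T' hT' h
  funext c
  by_cases hc : c = m
  · subst hc
    have h1 := LExt.zero hT c (by simp)
    have h2 := LExt.zero hT' c (by simp)
    rw [h1, h2]
  · have := congrFun h c
    simpa [Function.update_of_ne hc] using this

lemma cnt_erase_le {s : Finset (ℕ × ℕ)} {m : ℕ × ℕ} (hm : m ∈ s) (hmax : ∀ a ∈ s, ¬ m < a) :
    cnt (s.erase m) ≤ cnt s :=
  Set.ncard_le_ncard_of_injOn (fun T => Function.update T m s.card)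
    (fun _ hT => LExt.update hm hmax hT) (update_injOn s m s.card) (finite_LExt s)

lemma cnt_erase_add_le {s : Finset (ℕ × ℕ)} {m m' : ℕ × ℕ} (hm : m ∈ s)
    (hmax : ∀ a ∈ s, ¬ m < a) (hm' : m' ∈ s) (hmax' : ∀ a ∈ s, ¬ m' < a) (hne : m ≠ m') :
    cnt (s.erase m) + cnt (s.erase m') ≤ cnt s := by
  set A := (fun T : ℕ × ℕ → ℕ => Function.update T m s.card) '' {T | LExt (s.erase m) T} with hA
  set B := (fun T : ℕ × ℕ → ℕ => Function.update T m' s.card) '' {T | LExt (s.erase m') T} with hB
  have hAs : A ⊆ {T | LExt s T} := by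
    rintro _ ⟨T, hT, rfl⟩
    exact LExt.update hm hmax hT
  have hBs : B ⊆ {T | LExt s T} := by
    rintro _ ⟨T, hT, rfl⟩
    exact LExt.update hm' hmax' hT
  have hAf : A.Finite := (finite_LExt s).subset hAs
  have hBf : B.Finite := (finite_LExt s).subset hBs
  have hdisj : Disjoint A B := by
    rw [Set.disjoint_left]
    intro T hTA hTB
    have h1 : T m = s.card := by
      obtain ⟨T0, _, rfl⟩ := hTA
      exact Function.update_self ..
    have h2 : T m' = s.card := by
      obtain ⟨T0, _, rfl⟩ := hTB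
      exact Function.update_self ..
    have h3 : LExt s T := hAs hTA
    exact hne (h3.bij.injOn hm hm' (h1.trans h2.symm))
  have hcA : A.ncard = cnt (s.erase m) := (update_injOn s m s.card).ncard_image
  have hcB : B.ncard = cnt (s.erase m') := (update_injOn s m' s.card).ncard_image
  rw [← hcA, ← hcB, ← Set.ncard_union_eq hdisj hAf hBf]
  exact Set.ncard_le_ncard (Set.union_subset hAs hBs) (finite_LExt s)

lemma cnt_pos (s : Finset (ℕ × ℕ)) : 1 ≤ cnt s := by
  induction hn : s.card generalizing s with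
  | zero =>
    rw [card_eq_zero] at hn
    subst hn
    unfold cnt
    rw [Nat.succ_le_iff, Set.ncard_pos (finite_LExt ∅)]
    refine ⟨fun _ => 0, fun _ _ => rfl, ?_, ?_⟩
    · simp
    · intro a ha; simp at ha
  | succ n ih =>
    have hne : s.Nonempty := card_pos.1 (by omega)
    obtain ⟨m, hm⟩ := s.exists_maximal hne
    have hmax : ∀ a ∈ s, ¬ m < a := fun a ha hlt => absurd (hm.2 ha hlt.le) (not_le_of_gt hlt)
    have h1 := ih (s.erase m) (by rw [card_erase_of_mem hm.1]; omega)
    exact h1.trans (cnt_erase_le hm.1 hmax)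

/-! ### Two-column shapes -/

/-- `m` rows of length two followed by `l` rows of length one -/
def twoCol (m l : ℕ) : Finset (ℕ × ℕ) := (range (m + l) ×ˢ {0}) ∪ (range m ×ˢ {1})

lemma mem_twoCol {m l : ℕ} {c : ℕ × ℕ} :
    c ∈ twoCol m l ↔ (c.1 < m + l ∧ c.2 = 0) ∨ (c.1 < m ∧ c.2 = 1) := by
  simp only [twoCol, mem_union, mem_product, mem_range, mem_singleton]

lemma card_twoCol (m l : ℕ) : (twoCol m l).card = 2 * m + l := by
  unfold twoCol
  rw [card_union_of_disjoint]
  · simp; ring
  · rw [disjoint_left]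
    intro c h1 h2
    rw [mem_product, mem_range, mem_singleton] at h1 h2
    omega

lemma erase_a (m : ℕ) : (twoCol (m + 1) 0).erase (m, 1) = twoCol m 1 := by
  ext ⟨i, j⟩
  rw [mem_erase, mem_twoCol, mem_twoCol, Ne, Prod.mk.injEq]
  simp only
  omega

lemma erase_b (m : ℕ) : (twoCol (m + 1) 1).erase (m + 1, 0) = twoCol (m + 1) 0 := by
  ext ⟨i, j⟩
  rw [mem_erase, mem_twoCol, mem_twoCol, Ne, Prod.mk.injEq]
  simp only
  omega

lemma erase_c (m : ℕ) : (twoCol (m + 1) 1).erase (m, 1) = twoCol m 2 := by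
  ext ⟨i, j⟩
  rw [mem_erase, mem_twoCol, mem_twoCol, Ne, Prod.mk.injEq]
  simp only
  omega

lemma erase_d (m : ℕ) : (twoCol m 2).erase (m + 1, 0) = twoCol m 1 := by
  ext ⟨i, j⟩
  rw [mem_erase, mem_twoCol, mem_twoCol, Ne, Prod.mk.injEq]
  simp only
  omega

lemma not_lt_of {s : Finset (ℕ × ℕ)} {m : ℕ × ℕ}
    (h : ∀ a ∈ s, m.1 ≤ a.1 → m.2 ≤ a.2 → a = m) : ∀ a ∈ s, ¬ m < a := by
  intro a ha hlt
  have h1 := Prod.le_def.1 hlt.le
  exact absurd hlt (by rw [h a ha h1.1 h1.2]; exact lt_irrefl _)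

lemma cnt_twoCol_zero (m : ℕ) : cnt (twoCol m 1) ≤ cnt (twoCol (m + 1) 0) := by
  have h := cnt_erase_le (s := twoCol (m + 1) 0) (m := (m, 1)) (by rw [mem_twoCol]; simp)
    (not_lt_of (by
      rintro ⟨i, j⟩ ha h1 h2
      rw [mem_twoCol] at ha
      simp only at ha h1 h2
      rw [Prod.mk.injEq]
      omega))
  rwa [erase_a] at h

lemma two_pow_le (m : ℕ) : 2 ^ m ≤ cnt (twoCol m 1) := by
  induction m with
  | zero => exact cnt_pos _
  | succ m ih =>
    have h1 := cnt_erase_add_le (s := twoCol (m + 1) 1) (m := (m + 1, 0)) (m' := (m, 1))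
      (by rw [mem_twoCol]; simp)
      (not_lt_of (by
        rintro ⟨i, j⟩ ha h1 h2
        rw [mem_twoCol] at ha
        simp only at ha h1 h2
        rw [Prod.mk.injEq]
        omega)) (by rw [mem_twoCol]; simp)
      (not_lt_of (by
        rintro ⟨i, j⟩ ha h1 h2
        rw [mem_twoCol] at ha
        simp only at ha h1 h2
        rw [Prod.mk.injEq]
        omega)) (by rw [Ne, Prod.mk.injEq]; omega)
    rw [erase_b, erase_c] at h1
    have h2 := cnt_twoCol_zero m
    have h3 := cnt_erase_le (s := twoCol m 2) (m := (m + 1, 0)) (by rw [mem_twoCol]; simp)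
      (not_lt_of (by
        rintro ⟨i, j⟩ ha h1 h2
        rw [mem_twoCol] at ha
        simp only at ha h1 h2
        rw [Prod.mk.injEq]
        omega))
    rw [erase_d] at h3
    rw [pow_succ]
    omega

/-! ### Upper bound -/

/-- the cells outside the first column -/
def outer (lam : YoungDiagram) : Finset (ℕ × ℕ) := lam.cells.filter (fun c => 1 ≤ c.2)

lemma card_outer_add (lam : YoungDiagram) : (outer lam).card + lam.colLen 0 = lam.card := by
  have h := card_filter_add_card_filter_not (s := lam.cells) (fun c => 1 ≤ c.2)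
  have h2 : lam.cells.filter (fun c => ¬ 1 ≤ c.2) = lam.col 0 := by
    ext c
    simp only [YoungDiagram.col, mem_filter]
    have : ¬ 1 ≤ c.2 ↔ c.2 = 0 := by omega
    rw [this]
  rw [h2, ← YoungDiagram.colLen_eq_card] at h
  exact h

lemma numSYT_le (lam : YoungDiagram) : numSYT lam ≤ lam.card ^ (outer lam).card := by
  classical
  rcases Nat.eq_zero_or_pos lam.card with h0 | hpos
  · -- empty diagram
    have hempty : lam.cells = ∅ := card_eq_zero.1 h0
    have : outer lam = ∅ := by unfold outer; rw [hempty]; rfl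
    rw [this, card_empty, pow_zero]
    unfold numSYT
    rw [Set.ncard_le_one (by
      have := finite_LExt lam.cells
      refine this.subset ?_
      intro T hT
      exact (isSYT_iff lam T).1 hT)]
    intro T hT T' hT'
    funext c
    have hc : c ∉ lam := by
      intro h
      have : c ∈ lam.cells := h
      rw [hempty] at this
      simp at this
    rw [hT.zero c hc, hT'.zero c hc]
  have hinj : Function.Injective (fun T : {T | IsSYT lam T} => fun c : outer lam =>
      (⟨T.1 c.1 - 1, by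
        have h1 : c.1 ∈ lam.cells := (mem_filter.1 c.2).1
        have h2 := ((isSYT_iff lam T.1).1 T.2).mem_Icc h1
        have h3 : T.1 c.1 ≤ lam.card := h2.2
        omega⟩ : Fin lam.card)) := by
    intro T T' h
    obtain ⟨T, hT⟩ := T
    obtain ⟨T', hT'⟩ := T'
    apply Subtype.ext
    have hL := (isSYT_iff lam T).1 hT
    have hL' := (isSYT_iff lam T').1 hT'
    have hout : ∀ c ∈ outer lam, T c = T' c := by
      intro c hc
      have h1 := congrFun h ⟨c, hc⟩
      simp only [Fin.mk.injEq] at h1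
      have h2 := (hL.mem_Icc (mem_filter.1 hc).1).1
      have h3 := (hL'.mem_Icc (mem_filter.1 hc).1).1
      omega
    -- the first column
    set k := lam.colLen 0 with hk
    have hmem : ∀ i, (i, 0) ∈ lam ↔ i < k := fun i => YoungDiagram.mem_iff_lt_colLen
    set u : Fin k → ℕ := fun i => T (i.val, 0) with hu
    set u' : Fin k → ℕ := fun i => T' (i.val, 0) with hu'
    have hmono : StrictMono u := by
      intro i i' hii
      exact hT.col i.val i'.val 0 hii ((hmem _).2 i'.2)
    have hmono' : StrictMono u' := by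
      intro i i' hii
      exact hT'.col i.val i'.val 0 hii ((hmem _).2 i'.2)
    have hrange : ∀ (S : ℕ × ℕ → ℕ), LExt lam.cells S →
        Set.range (fun i : Fin k => S (i.val, 0)) =
          Set.Icc 1 lam.card \ (S '' (outer lam : Set (ℕ × ℕ))) := by
      intro S hS
      ext v
      constructor
      · rintro ⟨i, rfl⟩
        have hi : (i.val, 0) ∈ lam.cells := (hmem _).2 i.2
        refine ⟨hS.mem_Icc hi, ?_⟩
        rintro ⟨c, hc, hcv⟩
        have hc' : c ∈ outer lam := hc
        have h1 := hS.bij.injOn (mem_filter.1 hc').1 hi hcv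
        have h2 := (mem_filter.1 hc').2
        rw [h1] at h2
        simp at h2
      · rintro ⟨hv, hnot⟩
        obtain ⟨c, hc, hcv⟩ := hS.bij.surjOn hv
        have hc' : c ∈ lam.cells := hc
        have hc0 : c.2 = 0 := by
          by_contra h0
          exact hnot ⟨c, by
            have : c ∈ outer lam := mem_filter.2 ⟨hc', by omega⟩
            exact this, hcv⟩
        have hc1 : c = (c.1, 0) := Prod.ext rfl hc0
        refine ⟨⟨c.1, (hmem _).1 (by rw [← hc1]; exact hc')⟩, ?_⟩
        simp only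
        rw [← hc1]
        exact hcv
    have himg : T '' (outer lam : Set (ℕ × ℕ)) = T' '' (outer lam : Set (ℕ × ℕ)) :=
      Set.image_congr (fun c hc => hout c hc)
    have huu : u = u' := by
      refine (StrictMono.range_inj hmono hmono').1 ?_
      rw [hu, hu', hrange T hL, hrange T' hL', himg]
    funext c
    by_cases hc : c ∈ lam
    · by_cases hc0 : 1 ≤ c.2
      · exact hout c (mem_filter.2 ⟨hc, hc0⟩)
      · have hc1 : c = (c.1, 0) := Prod.ext rfl (by omega)
        have hlt : c.1 < k := (hmem _).1 (by rw [← hc1]; exact hc)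
        have := congrFun huu ⟨c.1, hlt⟩
        simp only [hu, hu'] at this
        rw [hc1]
        exact this
    · change T c = T' c
      rw [hT.zero c hc, hT'.zero c hc]
  have hle := Nat.card_le_card_of_injective _ hinj
  rw [Nat.card_eq_fintype_card (α := outer lam → Fin lam.card)] at hle
  simp only [Fintype.card_fun, Fintype.card_fin, Fintype.card_coe] at hle
  exact hle

/-! ### The probabilities -/

/-- the diagrams with `n` cells and `λ_1 + … + λ_r = j` -/
def shapes (n r j : ℕ) : Set YoungDiagram := {lam | lam.card = n ∧ topRows lam r = j}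

lemma fst_lt_card {lam : YoungDiagram} {c : ℕ × ℕ} (hc : c ∈ lam) : c.1 < lam.card := by
  have h1 : (c.1, 0) ∈ lam := lam.up_left_mem le_rfl (Nat.zero_le _) hc
  rw [YoungDiagram.mem_iff_lt_colLen] at h1
  have := card_outer_add lam
  omega

lemma snd_lt_card {lam : YoungDiagram} {c : ℕ × ℕ} (hc : c ∈ lam) : c.2 < lam.card := by
  have h1 : (0, c.2) ∈ lam := lam.up_left_mem (Nat.zero_le _) le_rfl hc
  rw [YoungDiagram.mem_iff_lt_rowLen] at h1
  have h2 : lam.rowLen 0 ≤ lam.card := by
    rw [YoungDiagram.rowLen_eq_card]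
    exact card_le_card (filter_subset _ _)
  omega

lemma finite_shapes (n r j : ℕ) : (shapes n r j).Finite := by
  have hinj : Set.InjOn YoungDiagram.cells (shapes n r j) := by
    intro a _ b _ h
    exact YoungDiagram.ext h
  refine Set.Finite.of_finite_image (f := YoungDiagram.cells) ?_ hinj
  refine ((range n ×ˢ range n).powerset.finite_toSet).subset ?_
  rintro _ ⟨lam, hlam, rfl⟩
  rw [mem_coe, mem_powerset]
  intro c hc
  have hc' : c ∈ lam := hc
  have h1 := fst_lt_card hc'
  have h2 := snd_lt_card hc'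
  rw [hlam.1] at h1 h2
  rw [mem_product, mem_range, mem_range]
  exact ⟨h1, h2⟩

lemma massTopRows_eq (n r j : ℕ) : massTopRows n r j =
    (∑ lam ∈ (finite_shapes n r j).toFinset, (numSYT lam : ℝ) ^ 2) / (n.factorial : ℝ) := by
  unfold massTopRows
  congr 1
  have h := finsum_mem_eq_finite_toFinset_sum (fun lam : YoungDiagram => (numSYT lam : ℝ) ^ 2)
    (finite_shapes n r j)
  exact h

lemma massTopRows_ge {n r j : ℕ} {lam : YoungDiagram} (h1 : lam.card = n)
    (h2 : topRows lam r = j) : (numSYT lam : ℝ) ^ 2 / (n.factorial : ℝ) ≤ massTopRows n r j := by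
  rw [massTopRows_eq]
  refine div_le_div_of_nonneg_right ?_ (Nat.cast_nonneg _)
  exact Finset.single_le_sum (f := fun lam : YoungDiagram => (numSYT lam : ℝ) ^ 2)
    (fun _ _ => sq_nonneg _) ((Set.Finite.mem_toFinset _).2 ⟨h1, h2⟩)

/-! ### The lower bound for `S_r = 2r - 2` -/

/-- the hook with `h` rows and first row of length `w` -/
def hook (h w : ℕ) (hh : 1 ≤ h) (hw : 1 ≤ w) : YoungDiagram where
  cells := (range h ×ˢ {0}) ∪ ({0} ×ˢ range w)
  isLowerSet := by
    rintro ⟨i, j⟩ ⟨i', j'⟩ hle hmem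
    have hle' : i' ≤ i ∧ j' ≤ j := by simpa using hle
    simp only [coe_union, Set.mem_union, mem_coe, mem_product, mem_range, mem_singleton]
      at hmem ⊢
    omega

lemma mem_hook {h w : ℕ} {hh : 1 ≤ h} {hw : 1 ≤ w} {i j : ℕ} :
    (i, j) ∈ hook h w hh hw ↔ (i < h ∧ j = 0) ∨ (i = 0 ∧ j < w) := by
  have : (i, j) ∈ hook h w hh hw ↔ (i, j) ∈ (range h ×ˢ {0}) ∪ ({0} ×ˢ range w) := Iff.rfl
  rw [this]
  simp only [mem_union, mem_product, mem_range, mem_singleton]

lemma rowLen_eq_of {lam : YoungDiagram} {i k : ℕ} (h : ∀ j, (i, j) ∈ lam ↔ j < k) :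
    lam.rowLen i = k := by
  have h1 : ∀ j, j < lam.rowLen i ↔ j < k := fun j => by
    rw [← YoungDiagram.mem_iff_lt_rowLen]; exact h j
  have h2 := h1 k
  have h3 := h1 (lam.rowLen i)
  omega

lemma card_hook {h w : ℕ} {hh : 1 ≤ h} {hw : 1 ≤ w} : (hook h w hh hw).card + 1 = h + w := by
  have h1 := Finset.card_union_add_card_inter (range h ×ˢ ({0} : Finset ℕ))
    (({0} : Finset ℕ) ×ˢ range w)
  have h2 : (range h ×ˢ ({0} : Finset ℕ)) ∩ (({0} : Finset ℕ) ×ˢ range w) = {(0, 0)} := by
    ext ⟨i, j⟩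
    simp only [mem_inter, mem_product, mem_range, mem_singleton, Prod.mk.injEq]
    omega
  rw [h2] at h1
  simp only [card_product, card_range, card_singleton, mul_one, one_mul] at h1
  exact h1

lemma topRows_hook {h w r : ℕ} {hh : 1 ≤ h} {hw : 1 ≤ w} (hr : 1 ≤ r) (hrh : r ≤ h) :
    topRows (hook h w hh hw) r + 1 = r + w := by
  unfold topRows
  obtain ⟨r', rfl⟩ : ∃ r', r = r' + 1 := ⟨r - 1, by omega⟩
  rw [Finset.sum_range_succ']
  have h0 : (hook h w hh hw).rowLen 0 = w := rowLen_eq_of (fun j => by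
    rw [mem_hook]; omega)
  have h1 : ∑ i ∈ range r', (hook h w hh hw).rowLen (i + 1) = ∑ i ∈ range r', 1 := by
    refine Finset.sum_congr rfl fun i hi => ?_
    refine rowLen_eq_of (fun j => ?_)
    rw [mem_hook]
    have := mem_range.1 hi
    omega
  rw [h0, h1]
  simp
  omega

lemma mass_low {n r : ℕ} (hr : 2 ≤ r) (hn : 2 * r ≤ n) :
    1 / (n.factorial : ℝ) ≤ massTopRows n r (2 * r - 2) := by
  have hh : 1 ≤ n - r + 2 := by omega
  have hw : 1 ≤ r - 1 := by omega
  have h1 := card_hook (hh := hh) (hw := hw)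
  have h2 := topRows_hook (hh := hh) (hw := hw) (r := r) (by omega) (by omega)
  refine le_trans ?_ (massTopRows_ge (lam := hook (n - r + 2) (r - 1) hh hw) (by omega) (by omega))
  refine div_le_div_of_nonneg_right ?_ (Nat.cast_nonneg _)
  have h3 : 1 ≤ numSYT (hook (n - r + 2) (r - 1) hh hw) := by
    rw [numSYT_eq]; exact cnt_pos _
  have h4 : (1 : ℝ) ≤ (numSYT (hook (n - r + 2) (r - 1) hh hw) : ℝ) := by exact_mod_cast h3
  nlinarith

/-! ### The lower bound for `S_r = 2r` -/

/-- the two-column diagram -/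
def twoColD (m l : ℕ) : YoungDiagram where
  cells := twoCol m l
  isLowerSet := by
    rintro ⟨i, j⟩ ⟨i', j'⟩ hle hmem
    have hle' : i' ≤ i ∧ j' ≤ j := by simpa using hle
    rw [mem_coe, mem_twoCol] at hmem ⊢
    simp only at hmem ⊢
    omega

lemma mem_twoColD {m l i j : ℕ} :
    (i, j) ∈ twoColD m l ↔ (i < m + l ∧ j = 0) ∨ (i < m ∧ j = 1) := by
  have : (i, j) ∈ twoColD m l ↔ (i, j) ∈ twoCol m l := Iff.rfl
  rw [this, mem_twoCol]

lemma topRows_twoColD {m l r : ℕ} (hr : r ≤ m) : topRows (twoColD m l) r = 2 * r := by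
  unfold topRows
  have : ∑ i ∈ range r, (twoColD m l).rowLen i = ∑ _i ∈ range r, 2 := by
    refine Finset.sum_congr rfl fun i hi => rowLen_eq_of (fun j => ?_)
    rw [mem_twoColD]
    have := mem_range.1 hi
    omega
  rw [this]
  simp [mul_comm]

lemma mass_high {n r : ℕ} (hn : 2 * r + 2 ≤ n) :
    (2 : ℝ) ^ n / 4 / (n.factorial : ℝ) ≤ massTopRows n r (2 * r) := by
  -- the shape
  obtain ⟨lam, h1, h2, h3⟩ : ∃ lam : YoungDiagram, lam.card = n ∧ topRows lam r = 2 * r ∧
      2 ^ n ≤ 4 * (numSYT lam) ^ 2 := by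
    rcases Nat.even_or_odd' n with ⟨m, hm | hm⟩
    · obtain ⟨m', rfl⟩ : ∃ m', m = m' + 1 := ⟨m - 1, by omega⟩
      refine ⟨twoColD (m' + 1) 0, ?_, topRows_twoColD (by omega), ?_⟩
      · have := card_twoCol (m' + 1) 0
        change (twoCol (m' + 1) 0).card = n
        omega
      · rw [numSYT_eq]
        have h4 : 2 ^ m' ≤ cnt (twoCol (m' + 1) 0) := (two_pow_le m').trans (cnt_twoCol_zero m')
        calc 2 ^ n = 4 * (2 ^ m') ^ 2 := by rw [hm]; ring
          _ ≤ 4 * (cnt (twoCol (m' + 1) 0)) ^ 2 :=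
              Nat.mul_le_mul_left _ (Nat.pow_le_pow_left h4 2)
    · refine ⟨twoColD m 1, ?_, topRows_twoColD (by omega), ?_⟩
      · have := card_twoCol m 1
        change (twoCol m 1).card = n
        omega
      · rw [numSYT_eq]
        have h4 : 2 ^ m ≤ cnt (twoCol m 1) := two_pow_le m
        calc 2 ^ n = 2 * (2 ^ m) ^ 2 := by rw [hm]; ring
          _ ≤ 4 * (2 ^ m) ^ 2 := Nat.mul_le_mul_right _ (by norm_num)
          _ ≤ 4 * (cnt (twoCol m 1)) ^ 2 :=
              Nat.mul_le_mul_left _ (Nat.pow_le_pow_left h4 2)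
  refine le_trans ?_ (massTopRows_ge h1 h2)
  refine div_le_div_of_nonneg_right ?_ (Nat.cast_nonneg _)
  have h5 : (2 : ℝ) ^ n ≤ 4 * (numSYT lam : ℝ) ^ 2 := by exact_mod_cast h3
  linarith

/-! ### The upper bound for `S_r = 2r - 1` -/

lemma card_filter_rows (lam : YoungDiagram) (r : ℕ) :
    (lam.cells.filter (fun c => c.1 < r)).card = topRows lam r := by
  unfold topRows
  rw [Finset.card_eq_sum_card_fiberwise (f := Prod.fst) (t := range r)
    (fun c hc => by simpa using (mem_filter.1 hc).2)]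
  refine Finset.sum_congr rfl fun i hi => ?_
  rw [YoungDiagram.rowLen_eq_card, YoungDiagram.row, Finset.filter_filter]
  congr 1
  refine Finset.filter_congr fun c _ => ?_
  have := mem_range.1 hi
  constructor
  · rintro ⟨_, h⟩; exact h
  · intro h; exact ⟨by omega, h⟩

lemma shape_facts {n r : ℕ} (hr : 2 ≤ r) (hn : 2 * r ≤ n) {lam : YoungDiagram}
    (h : lam ∈ shapes n r (2 * r - 1)) :
    (∀ i, i < r → (i, 0) ∈ lam) ∧ (∀ c ∈ outer lam, c.1 < r ∧ c.2 < 2 * r) ∧
      (outer lam).card = r - 1 := by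
  obtain ⟨h1, h2⟩ := h
  -- the row `r - 1` is nonempty
  have hne : (r - 1, 0) ∈ lam := by
    by_contra hcon
    have hall : lam.cells.filter (fun c => c.1 < r) = lam.cells := by
      rw [Finset.filter_eq_self]
      rintro ⟨i, j⟩ hc
      by_contra hi
      simp only [not_lt] at hi
      exact hcon (lam.up_left_mem (by omega) (Nat.zero_le _) hc)
    have h3 := card_filter_rows lam r
    rw [hall, h2] at h3
    have h4 : lam.cells.card = n := h1
    omega
  have hcol : ∀ i, i < r → (i, 0) ∈ lam := fun i hi =>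
    lam.up_left_mem (by omega) le_rfl hne
  -- the cell `(r - 1, 1)` is not in the diagram
  have hno : (r - 1, 1) ∉ lam := by
    intro hmem
    have h3 : range r ×ˢ ({0, 1} : Finset ℕ) ⊆ lam.cells.filter (fun c => c.1 < r) := by
      rintro ⟨i, j⟩ hc
      rw [mem_product, mem_range] at hc
      refine mem_filter.2 ⟨?_, hc.1⟩
      have hj : j = 0 ∨ j = 1 := by simpa using hc.2
      have hi : i < r := hc.1
      exact lam.up_left_mem (by omega) (by omega) hmem
    have h4 := card_le_card h3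
    rw [card_product, card_range, card_filter_rows, h2] at h4
    have h5 : ({0, 1} : Finset ℕ).card = 2 := rfl
    rw [h5] at h4
    omega
  have hout : ∀ c ∈ outer lam, c.1 < r := by
    rintro ⟨i, j⟩ hc
    have hc1 := mem_filter.1 hc
    by_contra hi
    simp only [not_lt] at hi
    exact hno (lam.up_left_mem (by omega) hc1.2 hc1.1)
  have hsplit : lam.cells.filter (fun c => c.1 < r) = outer lam ∪ (range r ×ˢ {0}) := by
    ext ⟨i, j⟩
    simp only [mem_filter, mem_union, mem_product, mem_range, mem_singleton, outer]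
    constructor
    · rintro ⟨ha, hb⟩
      rcases Nat.eq_zero_or_pos j with hj | hj
      · right; exact ⟨hb, hj⟩
      · left; exact ⟨ha, hj⟩
    · rintro (⟨ha, hb⟩ | ⟨ha, hb⟩)
      · exact ⟨ha, hout (i, j) (mem_filter.2 ⟨ha, hb⟩)⟩
      · subst hb; exact ⟨hcol i ha, ha⟩
  have hcard : (outer lam).card = r - 1 := by
    have h3 := card_filter_rows lam r
    rw [hsplit, h2, card_union_of_disjoint] at h3
    · rw [card_product, card_range, card_singleton] at h3
      omega
    · rw [disjoint_left]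
      intro c hc1 hc2
      have h4 := (mem_filter.1 hc1).2
      rw [mem_product, mem_singleton] at hc2
      omega
  refine ⟨hcol, ?_, hcard⟩
  rintro ⟨i, j⟩ hc
  refine ⟨hout _ hc, ?_⟩
  -- the cells `(0, 1), …, (0, j)` are in the outer part
  have hc1 := mem_filter.1 hc
  have h3 : ({0} : Finset ℕ) ×ˢ (Finset.Icc 1 j) ⊆ outer lam := by
    rintro ⟨a, b⟩ hab
    rw [mem_product, mem_singleton, mem_Icc] at hab
    refine mem_filter.2 ⟨lam.up_left_mem ?_ hab.2.2 hc1.1, hab.2.1⟩
    have : a = 0 := hab.1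
    omega
  have h4 := card_le_card h3
  rw [card_product, card_singleton, Nat.card_Icc, hcard] at h4
  simp only
  omega

lemma shapes_card_le {n r : ℕ} (hr : 2 ≤ r) (hn : 2 * r ≤ n) :
    (finite_shapes n r (2 * r - 1)).toFinset.card ≤ 2 ^ (r * (2 * r)) := by
  have h1 : (finite_shapes n r (2 * r - 1)).toFinset.card ≤
      ((range r ×ˢ range (2 * r)).powerset).card := by
    refine Finset.card_le_card_of_injOn outer ?_ ?_
    · intro lam hlam
      have hlam' := (Set.Finite.mem_toFinset _).1 (mem_coe.1 hlam)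
      have h := (shape_facts hr hn hlam').2.1
      rw [mem_coe, mem_powerset]
      intro c hc
      rw [mem_product, mem_range, mem_range]
      exact h c hc
    · intro lam hlam lam' hlam' heq
      have hl := (Set.Finite.mem_toFinset _).1 (mem_coe.1 hlam)
      have hl' := (Set.Finite.mem_toFinset _).1 (mem_coe.1 hlam')
      have ha := card_outer_add lam
      have hb := card_outer_add lam'
      have hc : lam.colLen 0 = lam'.colLen 0 := by
        rw [heq] at ha
        have h1 := hl.1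
        have h2 := hl'.1
        omega
      apply YoungDiagram.ext
      ext ⟨i, j⟩
      rcases Nat.eq_zero_or_pos j with hj | hj
      · subst hj
        have e1 : (i, 0) ∈ lam.cells ↔ i < lam.colLen 0 := YoungDiagram.mem_iff_lt_colLen
        have e2 : (i, 0) ∈ lam'.cells ↔ i < lam'.colLen 0 := YoungDiagram.mem_iff_lt_colLen
        rw [e1, e2, hc]
      · have e1 : (i, j) ∈ lam.cells ↔ (i, j) ∈ outer lam := by
          unfold outer
          rw [mem_filter]
          exact ⟨fun h => ⟨h, hj⟩, fun h => h.1⟩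
        have e2 : (i, j) ∈ lam'.cells ↔ (i, j) ∈ outer lam' := by
          unfold outer
          rw [mem_filter]
          exact ⟨fun h => ⟨h, hj⟩, fun h => h.1⟩
        rw [e1, e2, heq]
  rw [card_powerset, card_product, card_range, card_range] at h1
  exact h1

lemma mass_mid {n r : ℕ} (hr : 2 ≤ r) (hn : 2 * r ≤ n) :
    massTopRows n r (2 * r - 1) ≤
      (2 : ℝ) ^ (r * (2 * r)) * ((n : ℝ) ^ (r - 1)) ^ 2 / (n.factorial : ℝ) := by
  rw [massTopRows_eq]
  refine div_le_div_of_nonneg_right ?_ (Nat.cast_nonneg _)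
  calc ∑ lam ∈ (finite_shapes n r (2 * r - 1)).toFinset, (numSYT lam : ℝ) ^ 2
      ≤ ∑ _lam ∈ (finite_shapes n r (2 * r - 1)).toFinset, ((n : ℝ) ^ (r - 1)) ^ 2 := by
        refine Finset.sum_le_sum fun lam hlam => ?_
        have hlam' := (Set.Finite.mem_toFinset _).1 hlam
        have h1 := numSYT_le lam
        rw [(shape_facts hr hn hlam').2.2, hlam'.1] at h1
        refine pow_le_pow_left₀ (Nat.cast_nonneg _) ?_ 2
        exact_mod_cast h1
    _ = ((finite_shapes n r (2 * r - 1)).toFinset.card : ℝ) * ((n : ℝ) ^ (r - 1)) ^ 2 := by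
        rw [Finset.sum_const, nsmul_eq_mul]
    _ ≤ (2 : ℝ) ^ (r * (2 * r)) * ((n : ℝ) ^ (r - 1)) ^ 2 := by
        refine mul_le_mul_of_nonneg_right ?_ (by positivity)
        exact_mod_cast shapes_card_le hr hn

/-! ### Conclusion -/

lemma eventually_large (r : ℕ) : ∃ N : ℕ, ∀ n : ℕ, N ≤ n →
    4 * ((2 : ℝ) ^ (r * (2 * r)) * ((n : ℝ) ^ (r - 1)) ^ 2) ^ 2 < (2 : ℝ) ^ n := by
  have h := tendsto_pow_const_div_const_pow_of_one_lt (4 * (r - 1)) (r := (2 : ℝ)) (by norm_num)
  set K : ℝ := 4 * ((2 : ℝ) ^ (r * (2 * r))) ^ 2 with hK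
  have hKpos : 0 < K := by positivity
  have h2 := (h.eventually (gt_mem_nhds (show (0 : ℝ) < 1 / K by positivity)))
  obtain ⟨N, hN⟩ := Filter.eventually_atTop.1 h2
  refine ⟨N, fun n hn => ?_⟩
  have h3 := hN n hn
  have hpow : (0 : ℝ) < 2 ^ n := by positivity
  rw [div_lt_div_iff₀ hpow hKpos] at h3
  calc 4 * ((2 : ℝ) ^ (r * (2 * r)) * ((n : ℝ) ^ (r - 1)) ^ 2) ^ 2
      = (n : ℝ) ^ (4 * (r - 1)) * K := by rw [hK]; ring
    _ < 1 * 2 ^ n := h3
    _ = 2 ^ n := one_mul _

theorem main (r : ℕ) (hr : 2 ≤ r) : ∃ N : ℕ, ∀ n : ℕ, N ≤ n →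
    massTopRows n r (2 * r - 1) ^ 2 < massTopRows n r (2 * r - 2) * massTopRows n r (2 * r) := by
  obtain ⟨N, hN⟩ := eventually_large r
  refine ⟨max N (2 * r + 2), fun n hn => ?_⟩
  have hn1 : N ≤ n := le_trans (le_max_left _ _) hn
  have hn2 : 2 * r + 2 ≤ n := le_trans (le_max_right _ _) hn
  have hf : (0 : ℝ) < n.factorial := by exact_mod_cast n.factorial_pos
  have h1 := mass_low hr (show 2 * r ≤ n by omega)
  have h2 := mass_high hn2
  have h3 := mass_mid hr (show 2 * r ≤ n by omega)
  have h0 : 0 ≤ massTopRows n r (2 * r - 1) := by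
    rw [massTopRows_eq]
    exact div_nonneg (Finset.sum_nonneg fun _ _ => sq_nonneg _) hf.le
  have h4 := hN n hn1
  set A := (2 : ℝ) ^ (r * (2 * r)) * ((n : ℝ) ^ (r - 1)) ^ 2 with hA
  have hApos : 0 ≤ A := by positivity
  calc massTopRows n r (2 * r - 1) ^ 2 ≤ (A / (n.factorial : ℝ)) ^ 2 := pow_le_pow_left₀ h0 h3 2
    _ = A ^ 2 / (n.factorial : ℝ) ^ 2 := by rw [div_pow]
    _ < ((2 : ℝ) ^ n / 4) / (n.factorial : ℝ) ^ 2 := by
        refine div_lt_div_of_pos_right ?_ (by positivity)
        linarith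
    _ = 1 / (n.factorial : ℝ) * ((2 : ℝ) ^ n / 4 / (n.factorial : ℝ)) := by
        field_simp
    _ ≤ massTopRows n r (2 * r - 2) * massTopRows n r (2 * r) := by
        refine mul_le_mul h1 h2 (by positivity) ?_
        exact le_trans (by positivity) h1

end Q296.Planch
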